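import Pool.Agent.H.MP_b28609_co.LowC

/-!
# MP_b28609_co: faster checks of the lists of states
-/

set_option autoImplicit false

namespace PatDom.V2

/-- Bit `k` of `c`. -/
def bitB (c k : ℕ) : Bool := Nat.beq ((c >>> k) % 2) 1

/-- `f (acc ||| U)` for all `U < 2 ^ k` whose bits are bits of `c`. -/
def allSub (k c acc : ℕ) (f : ℕ → Bool) : Bool :=
  Nat.rec (motive := fun _ => ℕ → Bool) (fun a => f a)
    (fun k ih a => ih a && (!(bitB c k) || ih (a ||| 2 ^ k))) k acc

theorem bitB_eq (c k : ℕ) : bitB c k = c.testBit k := by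
  unfold bitB
  rw [Nat.testBit_eq_decide_div_mod_eq, Nat.shiftRight_eq_div_pow]
  by_cases h : c / 2 ^ k % 2 = 1
  · rw [h]
    rfl
  · have h0 : c / 2 ^ k % 2 = 0 := by omega
    rw [h0]
    rfl

theorem allSub_sound (f : ℕ → Bool) (c : ℕ) : ∀ k acc, allSub k c acc f = true →
    ∀ U, U < 2 ^ k → (∀ i, U.testBit i = true → c.testBit i = true) → f (acc ||| U) = true := by
  intro k
  induction k with
  | zero =>
    intro acc h U hU _
    have : U = 0 := by simpa using hU
    subst this
    rw [Nat.or_zero]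
    exact h
  | succ k ih =>
    intro acc h U hU hs
    have h' : (allSub k c acc f && (!(bitB c k) || allSub k c (acc ||| 2 ^ k) f)) = true := h
    rw [Bool.and_eq_true] at h'
    by_cases hk : U.testBit k = true
    · have h2 := h'.2
      rw [bitB_eq, hs k hk] at h2
      simp only [Bool.not_true, Bool.false_or] at h2
      have hU' : U % 2 ^ k < 2 ^ k := Nat.mod_lt _ (Nat.two_pow_pos _)
      have h3 := ih _ h2 (U % 2 ^ k) hU' (by
        intro i hi
        rw [Nat.testBit_mod_two_pow] at hi
        simp only [Bool.and_eq_true] at hi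
        exact hs i hi.2)
      have e : (acc ||| 2 ^ k) ||| U % 2 ^ k = acc ||| U := by
        apply Nat.eq_of_testBit_eq
        intro i
        rw [Nat.testBit_or, Nat.testBit_or, Nat.testBit_or, Nat.testBit_mod_two_pow,
          Nat.testBit_two_pow]
        by_cases hik : i = k
        · subst hik
          simp [hk]
        · by_cases hlt : i < k
          · have : ¬ k = i := fun h => hik h.symm
            simp [hlt, this]
          · have h5 : U.testBit i = false := by
              apply Nat.testBit_lt_two_pow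
              exact lt_of_lt_of_le hU (Nat.pow_le_pow_right (by decide) (by omega))
            have : ¬ k = i := fun h => hik h.symm
            simp [hlt, h5, this]
      rw [e] at h3
      exact h3
    · apply ih _ h'.1 U _ hs
      have h5 : U.testBit k = false := by simpa using hk
      by_contra hcon
      have h6 : 2 ^ k ≤ U := by omega
      have h7 : U / 2 ^ k = 1 := by
        have h8 : U < 2 ^ k * 2 := by rw [← Nat.pow_succ]; exact hU
        apply Nat.div_eq_of_lt_le <;> omega
      rw [Nat.testBit_eq_decide_div_mod_eq, h7] at h5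
      simp at h5

/-- Potential of a half state. -/
def pot (P : Par) (A C : ℕ) : ℕ :=
  (((P.T >>> (P.w * 2 ^ P.m * A)) % 2 ^ (P.w * 2 ^ P.m)) >>> (P.w * C)) % 2 ^ P.w

/-- Check of the table of potentials, for the half state `(A, C)`. -/
def potOK1 (P : Par) (A C : ℕ) : Bool :=
  (!(Nat.beq C (2 ^ P.m - 1)) || Nat.ble (pot P A C) P.K) &&
    allSub P.m C ((2 ^ P.m - 1) ^^^ C) fun X =>
      Nat.ble (pot P A C + P.p) (P.q * pop P.m X + pot P X (A ||| nbr P.m X))

/-- Check of the table of potentials for the rows `a ≤ A < a + k`. -/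
def potRows (P : Par) (a k : ℕ) : Bool :=
  allR k fun i => allSub P.m ((2 ^ P.m - 1) ^^^ nbr P.m (a + i)) (nbr P.m (a + i)) fun C =>
    potOK1 P (a + i) C

/-- The table of potentials is right. -/
def PotOK (P : Par) : Prop :=
  ∀ A C, A < 2 ^ P.m → C < 2 ^ P.m → C &&& nbr P.m A = nbr P.m A → potOK1 P A C = true

theorem potRows_sound (P : Par) (a k : ℕ) (h : potRows P a k = true) (A : ℕ) (h1 : a ≤ A)
    (h2 : A < a + k) (C : ℕ) (hC : C < 2 ^ P.m) (hs : C &&& nbr P.m A = nbr P.m A) :
    potOK1 P A C = true := by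
  unfold potRows at h
  rw [allR_iff] at h
  have h3 := h (A - a) (by omega)
  rw [show a + (A - a) = A by omega] at h3
  have h4 := allSub_sound _ _ _ _ h3 (C &&& ((2 ^ P.m - 1) ^^^ nbr P.m A))
    (lt_of_le_of_lt Nat.and_le_left hC) (by
      intro i hi
      rw [Nat.testBit_and, Bool.and_eq_true] at hi
      exact hi.2)
  have e : nbr P.m A ||| (C &&& ((2 ^ P.m - 1) ^^^ nbr P.m A)) = C := by
    apply Nat.eq_of_testBit_eq
    intro i
    have h5 := congrArg (fun z => z.testBit i) hs
    simp only [Nat.testBit_and] at h5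
    rw [Nat.testBit_or, Nat.testBit_and, Nat.testBit_xor, Nat.testBit_two_pow_sub_one]
    by_cases hi : i < P.m
    · rw [decide_eq_true hi]
      revert h5
      cases C.testBit i <;> cases (nbr P.m A).testBit i <;> simp
    · have h6 : C.testBit i = false := by
        apply Nat.testBit_lt_two_pow
        exact lt_of_lt_of_le hC (Nat.pow_le_pow_right (by decide) (by omega))
      rw [h6] at h5 ⊢
      simp only [Bool.false_and] at h5 ⊢
      rw [← h5]
      rfl
  rw [e] at h4
  exact h4

/-- Check of the successors of a state. -/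
def stepOK (P : Par) (S' : List St) (s : St) : Bool :=
  allSub P.m s.C ((2 ^ P.m - 1) ^^^ s.C) fun X =>
    !(Nat.beq (s.L &&& X) s.L &&
        Nat.ble (P.q * pop P.m X + pot P X (s.A ||| nbr P.m X)) (s.x + pot P s.A s.C + P.p)) ||
    allSub P.m s.E ((2 ^ P.m - 1) ^^^ s.E) fun Y =>
      !(Nat.beq (s.R &&& Y) s.R &&
          Nat.ble (P.q * pop P.m Y + pot P Y (s.B ||| nbr P.m Y)) (s.y + pot P s.B s.E + P.p)) ||
      allSub P.m ((X ^^^ s.L) &&& ((Y ^^^ s.R) >>> 1)) 0 fun U =>
        allSub P.m ((Y ^^^ s.R ^^^ (U <<< 1)) &&& ((X ^^^ s.L ^^^ U) >>> 1)) 0 fun W =>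
          memb ⟨X, Y, X ^^^ s.L ^^^ U ^^^ (W <<< 1), Y ^^^ s.R ^^^ (U <<< 1) ^^^ W,
            s.A ||| nbr P.m X, s.B ||| nbr P.m Y,
            s.x + pot P s.A s.C + P.p - (P.q * pop P.m X + pot P X (s.A ||| nbr P.m X)),
            s.y + pot P s.B s.E + P.p - (P.q * pop P.m Y + pot P Y (s.B ||| nbr P.m Y))⟩ S'

/-- Check of a final state: excess at least `v`. -/
def termOK (P : Par) (vmax v : ℕ) (s : St) : Bool :=
  !(Nat.beq s.C (2 ^ P.m - 1) && Nat.beq s.E (2 ^ P.m - 1) && Nat.beq s.R 0 && Nat.beq s.L 0) ||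
    Nat.ble (s.x + pot P s.A s.C + v) (vmax + P.K)

end PatDom.V2
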