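import Pool.Agent.H.MP_b28609_co.V2.Low

/-!
# MP_b28609_co: soundness of the faster checks
-/

set_option autoImplicit false

namespace PatDom.V2

theorem sup_eq (m C A : ℕ) (hC : C < 2 ^ m) (hA : A < 2 ^ m) (h : C ||| A = 2 ^ m - 1) :
    ((2 ^ m - 1) ^^^ C) ||| (A &&& C) = A := by
  apply Nat.eq_of_testBit_eq
  intro i
  have h5 := congrArg (fun z => z.testBit i) h
  simp only [Nat.testBit_or, Nat.testBit_two_pow_sub_one] at h5
  rw [Nat.testBit_or, Nat.testBit_and, Nat.testBit_xor, Nat.testBit_two_pow_sub_one]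
  by_cases hi : i < m
  · rw [decide_eq_true hi] at h5 ⊢
    revert h5
    cases C.testBit i <;> cases A.testBit i <;> simp
  · have h6 : C.testBit i = false := by
      apply Nat.testBit_lt_two_pow
      exact lt_of_lt_of_le hC (Nat.pow_le_pow_right (by decide) (by omega))
    have h7 : A.testBit i = false := by
      apply Nat.testBit_lt_two_pow
      exact lt_of_lt_of_le hA (Nat.pow_le_pow_right (by decide) (by omega))
    rw [decide_eq_false hi, h6, h7]
    rfl

/-- Potentials along a dominating set. -/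
theorem half (P : Par) (hpot : PotOK P) (n : ℕ) (Am C : ℕ → ℕ)
    (hA : ∀ j, Am j < 2 ^ P.m) (hC0 : C 0 = 2 ^ P.m - 1)
    (hCs : ∀ j, C (j + 1) = prv Am 0 j ||| nbr P.m (Am j))
    (hdom : ∀ j ≤ n, C j ||| Am j = 2 ^ P.m - 1) (hn0 : Am n = 0) :
    ∀ d j, j + d = n → P.q * (∑ k ∈ Finset.range j, pop P.m (Am k)) + pot P (prv Am 0 j) (C j) +
      P.p * d ≤ P.q * (∑ k ∈ Finset.range n, pop P.m (Am k)) + P.K := by
  have hpA : ∀ j, prv Am 0 j < 2 ^ P.m := by
    intro j
    cases j with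
    | zero => exact Nat.two_pow_pos _
    | succ j => exact hA j
  have hnb : ∀ A, nbr P.m A < 2 ^ P.m := fun A => Nat.mod_lt _ (Nat.two_pow_pos _)
  have hClt : ∀ j, C j < 2 ^ P.m := by
    intro j
    cases j with
    | zero =>
      rw [hC0]
      have := Nat.two_pow_pos P.m
      omega
    | succ j =>
      rw [hCs]
      exact Nat.or_lt_two_pow (hpA j) (hnb _)
  have hone : ∀ j, potOK1 P (prv Am 0 j) (C j) = true := by
    intro j
    refine hpot _ _ (hpA j) (hClt j) ?_
    cases j with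
    | zero =>
      rw [hC0]
      simp [prv, nbr]
    | succ j =>
      rw [hCs]
      apply Nat.eq_of_testBit_eq
      intro i
      have hp : prv Am 0 (j + 1) = Am j := rfl
      rw [hp, Nat.testBit_and, Nat.testBit_or]
      cases (prv Am 0 j).testBit i <;> cases (nbr P.m (Am j)).testBit i <;> rfl
  intro d
  induction d with
  | zero =>
    intro j hj
    have hj' : j = n := by omega
    subst hj'
    have h := hone j
    unfold potOK1 at h
    rw [Bool.and_eq_true] at h
    have hC : C j = 2 ^ P.m - 1 := by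
      have := hdom j le_rfl
      rw [hn0, Nat.or_zero] at this
      exact this
    have h1 := h.1
    rw [hC] at h1 ⊢
    simp only [Bool.or_eq_true, Bool.not_eq_true', Nat.ble_eq] at h1
    rcases h1 with h1 | h1
    · exact absurd (Nat.beq_eq ▸ rfl : Nat.beq (2 ^ P.m - 1) (2 ^ P.m - 1) = true) (by rw [h1]; decide)
    · omega
  | succ d ih =>
    intro j hj
    have h0 := ih (j + 1) (by omega)
    have h := hone j
    unfold potOK1 at h
    rw [Bool.and_eq_true] at h
    have hd := hdom j (by omega)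
    have h1 := allSub_sound _ _ _ _ h.2 (Am j &&& C j) (lt_of_le_of_lt Nat.and_le_left (hA j)) (by
      intro i hi
      rw [Nat.testBit_and, Bool.and_eq_true] at hi
      exact hi.2)
    rw [sup_eq _ _ _ (hClt j) (hA j) hd, Nat.ble_eq] at h1
    have hp : prv Am 0 (j + 1) = Am j := rfl
    rw [Finset.sum_range_succ, hCs j, hp] at h0
    rw [Nat.mul_add] at h0
    rw [Nat.mul_add P.p d 1]
    omega

open Classical in
theorem low_sound (P : Par) (hpot : PotOK P) (n : ℕ) (D : Finset (Fin P.m × Fin n))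
    (hD : Patrol (grid P.m n) D) (vmax x0 v : ℕ)
    (hx0 : x0 + pot P 0 (2 ^ P.m - 1) = vmax + P.K) (S : ℕ → List St)
    (h0 : (⟨0, 0, 0, 0, 2 ^ P.m - 1, 2 ^ P.m - 1, x0, x0⟩ : St) ∈ S 0)
    (hS : ∀ j < n, ∀ s ∈ S j, stepOK P (S (j + 1)) s = true) (hv : v ≤ vmax + 1)
    (hfin : ∀ s ∈ S n, termOK P vmax v s = true) :
    P.p * n + v ≤ P.q * D.card := by
  by_contra hlt
  push Not at hlt
  obtain ⟨domD, D', domD', φ, hφ⟩ := hD
  have hcard : D'.card = D.card := by
    have := Fintype.card_congr φ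
    rw [Fintype.card_coe, Fintype.card_coe] at this
    exact this.symm
  -- relations
  obtain ⟨a, ha⟩ : ∃ a : ℕ → ℕ → Prop, ∀ i j, a i j ↔ ∃ x ∈ D, x.1.val = i ∧ x.2.val = j :=
    ⟨fun i j => ∃ x ∈ D, x.1.val = i ∧ x.2.val = j, fun i j => Iff.rfl⟩
  obtain ⟨b, hb⟩ : ∃ b : ℕ → ℕ → Prop, ∀ i j, b i j ↔ ∃ x ∈ D', x.1.val = i ∧ x.2.val = j :=
    ⟨fun i j => ∃ x ∈ D', x.1.val = i ∧ x.2.val = j, fun i j => Iff.rfl⟩
  obtain ⟨M, hM⟩ : ∃ M : ℕ → ℕ → ℕ → ℕ → Prop, ∀ i j i' j', M i j i' j' ↔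
      ∃ x : D, (x : Fin P.m × Fin n).1.val = i ∧
        (x : Fin P.m × Fin n).2.val = j ∧ (φ x : Fin P.m × Fin n).1.val = i' ∧
        (φ x : Fin P.m × Fin n).2.val = j' :=
    ⟨fun i j i' j' => ∃ x : D, (x : Fin P.m × Fin n).1.val = i ∧
        (x : Fin P.m × Fin n).2.val = j ∧ (φ x : Fin P.m × Fin n).1.val = i' ∧
        (φ x : Fin P.m × Fin n).2.val = j', fun i j i' j' => Iff.rfl⟩
  have hMa : ∀ i j i' j', M i j i' j' → a i j := by
    intro i j i' j' h
    obtain ⟨x, h1, h2, -, -⟩ := (hM _ _ _ _).1 h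
    exact (ha _ _).2 ⟨x, x.2, h1, h2⟩
  have hMb : ∀ i j i' j', M i j i' j' → b i' j' := by
    intro i j i' j' h
    obtain ⟨x, -, -, h1, h2⟩ := (hM _ _ _ _).1 h
    exact (hb _ _).2 ⟨φ x, (φ x).2, h1, h2⟩
  have hMfun : ∀ i j i' j' i'' j'', M i j i' j' → M i j i'' j'' → i' = i'' ∧ j' = j'' := by
    intro i j i' j' i'' j'' hx hy
    obtain ⟨x, h1, h2, h3, h4⟩ := (hM _ _ _ _).1 hx
    obtain ⟨y, k1, k2, k3, k4⟩ := (hM _ _ _ _).1 hy
    have hxy : x = y := by
      apply Subtype.ext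
      apply Prod.ext
      · exact Fin.ext (h1.trans k1.symm)
      · exact Fin.ext (h2.trans k2.symm)
    subst hxy
    exact ⟨h3.symm.trans k3, h4.symm.trans k4⟩
  have hMinj : ∀ i j i' j' i'' j'', M i' j' i j → M i'' j'' i j → i' = i'' ∧ j' = j'' := by
    intro i j i' j' i'' j'' hx hy
    obtain ⟨x, h1, h2, h3, h4⟩ := (hM _ _ _ _).1 hx
    obtain ⟨y, k1, k2, k3, k4⟩ := (hM _ _ _ _).1 hy
    have hxy : x = y := by
      apply φ.injective
      apply Subtype.ext
      apply Prod.ext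
      · exact Fin.ext (h3.trans k3.symm)
      · exact Fin.ext (h4.trans k4.symm)
    subst hxy
    exact ⟨h1.symm.trans k1, h2.symm.trans k2⟩
  have hMex : ∀ i j, a i j → ∃ i' j', M i j i' j' ∧
      (((i' = i + 1 ∨ i = i' + 1) ∧ j' = j) ∨ ((j' = j + 1 ∨ j = j' + 1) ∧ i' = i)) := by
    intro i j hij
    obtain ⟨x, hx, h1, h2⟩ := (ha _ _).1 hij
    refine ⟨_, _, (hM _ _ _ _).2 ⟨⟨x, hx⟩, h1, h2, rfl, rfl⟩, ?_⟩
    have h := hφ ⟨x, hx⟩
    rw [grid_adj] at h
    simp only at h
    rcases h with ⟨h3, h4⟩ | ⟨h3, h4⟩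
    · left
      rw [← h4]
      exact ⟨by omega, h2⟩
    · right
      rw [← h4]
      exact ⟨by omega, h1⟩
  have hMex' : ∀ i j, b i j → ∃ i' j', M i' j' i j ∧
      (((i' = i + 1 ∨ i = i' + 1) ∧ j' = j) ∨ ((j' = j + 1 ∨ j = j' + 1) ∧ i' = i)) := by
    intro i j hij
    obtain ⟨y, hy, h1, h2⟩ := (hb _ _).1 hij
    have hxy : φ (φ.symm ⟨y, hy⟩) = ⟨y, hy⟩ := φ.apply_symm_apply _
    refine ⟨_, _, (hM _ _ _ _).2 ⟨φ.symm ⟨y, hy⟩, rfl, rfl, ?_, ?_⟩, ?_⟩
    · rw [hxy]
      exact h1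
    · rw [hxy]
      exact h2
    · have h := hφ (φ.symm ⟨y, hy⟩)
      rw [grid_adj, hxy] at h
      simp only at h
      rcases h with ⟨h3, h4⟩ | ⟨h3, h4⟩
      · left
        rw [h4]
        exact ⟨by omega, h2⟩
      · right
        rw [h4]
        exact ⟨by omega, h1⟩
  have PA := pat5 a M hMa hMex hMfun
  have PB := pat5 b (fun i j i' j' => M i' j' i j) (fun i j i' j' h => hMb i' j' i j h) hMex' hMinj
  -- masks
  have halt : ∀ i j, a i j → i < P.m := by
    intro i j hij
    obtain ⟨x, -, h1, -⟩ := (ha _ _).1 hij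
    rw [← h1]
    exact x.1.isLt
  have hblt : ∀ i j, b i j → i < P.m := by
    intro i j hij
    obtain ⟨x, -, h1, -⟩ := (hb _ _).1 hij
    rw [← h1]
    exact x.1.isLt
  let Am : ℕ → ℕ := fun j => msk P.m fun i => a i j
  let Bm : ℕ → ℕ := fun j => msk P.m fun i => b i j
  let Um : ℕ → ℕ := fun j => msk P.m fun i => M i j (i + 1) j
  let Wm : ℕ → ℕ := fun j => msk P.m fun i => M (i + 1) j i j
  let Rm : ℕ → ℕ := fun j => msk P.m fun i => M i j i (j + 1)
  let Lm : ℕ → ℕ := fun j => msk P.m fun i => M i (j + 1) i j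
  have bA : ∀ i j, (Am j).testBit i = decide (a i j) :=
    fun i j => msk_testBit _ _ (fun i h => halt i j h) i
  have bB : ∀ i j, (Bm j).testBit i = decide (b i j) :=
    fun i j => msk_testBit _ _ (fun i h => hblt i j h) i
  have bU : ∀ i j, (Um j).testBit i = decide (M i j (i + 1) j) :=
    fun i j => msk_testBit _ _ (fun i h => halt i j (hMa _ _ _ _ h)) i
  have bW : ∀ i j, (Wm j).testBit i = decide (M (i + 1) j i j) :=
    fun i j => msk_testBit _ _ (fun i h => hblt i j (hMb _ _ _ _ h)) i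
  have bR : ∀ i j, (Rm j).testBit i = decide (M i j i (j + 1)) :=
    fun i j => msk_testBit _ _ (fun i h => halt i j (hMa _ _ _ _ h)) i
  have bL : ∀ i j, (Lm j).testBit i = decide (M i (j + 1) i j) :=
    fun i j => msk_testBit _ _ (fun i h => hblt i j (hMb _ _ _ _ h)) i
  have bU1 : ∀ i j, (Um j <<< 1).testBit i = decide (1 ≤ i ∧ M (i - 1) j i j) := by
    intro i j
    rw [Nat.testBit_shiftLeft, bU]
    by_cases hi : 1 ≤ i
    · rw [Nat.sub_add_cancel hi]
      simp [hi]
    · simp [hi]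
  have bW1 : ∀ i j, (Wm j <<< 1).testBit i = decide (1 ≤ i ∧ M i j (i - 1) j) := by
    intro i j
    rw [Nat.testBit_shiftLeft, bW]
    by_cases hi : 1 ≤ i
    · rw [Nat.sub_add_cancel hi]
      simp [hi]
    · simp [hi]
  have bRp : ∀ i j, (prv Rm 0 j).testBit i = decide (1 ≤ j ∧ M i (j - 1) i j) := by
    intro i j
    cases j with
    | zero => simp [prv]
    | succ j =>
      have : prv Rm 0 (j + 1) = Rm j := rfl
      rw [this, bR]
      simp
  have bLp : ∀ i j, (prv Lm 0 j).testBit i = decide (1 ≤ j ∧ M i j i (j - 1)) := by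
    intro i j
    cases j with
    | zero => simp [prv]
    | succ j =>
      have : prv Lm 0 (j + 1) = Lm j := rfl
      rw [this, bL]
      simp
  have QA : ∀ i j, P5 ((Am j).testBit i) ((Um j).testBit i) ((Wm j <<< 1).testBit i)
      ((Rm j).testBit i) ((prv Lm 0 j).testBit i) := by
    intro i j
    rw [bA, bU, bW1, bR, bLp]
    exact PA i j
  have QB : ∀ i j, P5 ((Bm j).testBit i) ((Wm j).testBit i) ((Um j <<< 1).testBit i)
      ((Lm j).testBit i) ((prv Rm 0 j).testBit i) := by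
    intro i j
    rw [bB, bW, bU1, bL, bRp]
    exact PB i j
  -- covering
  have hnb : ∀ A, nbr P.m A < 2 ^ P.m := fun A => Nat.mod_lt _ (Nat.two_pow_pos _)
  have covlt : ∀ (X : ℕ → ℕ), (∀ j, X j < 2 ^ P.m) → ∀ j, cov P.m X j < 2 ^ P.m := by
    intro X hX j
    cases j with
    | zero =>
      have := Nat.two_pow_pos P.m
      have e : cov P.m X 0 = 2 ^ P.m - 1 := rfl
      omega
    | succ j =>
      refine Nat.or_lt_two_pow ?_ (hnb _)
      cases j with
      | zero => exact Nat.two_pow_pos _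
      | succ j => exact hX j
  have hdA : ∀ j ≤ n, cov P.m Am j ||| Am j = 2 ^ P.m - 1 :=
    dom_mask D domD a ha (cov P.m Am) rfl (fun j => rfl)
  have hdB : ∀ j ≤ n, cov P.m Bm j ||| Bm j = 2 ^ P.m - 1 :=
    dom_mask D' domD' b hb (cov P.m Bm) rfl (fun j => rfl)
  have hAn : Am n = 0 := by
    apply Nat.eq_of_testBit_eq
    intro i
    rw [bA, Nat.zero_testBit]
    apply decide_eq_false
    intro hij
    obtain ⟨x, -, -, h2⟩ := (ha _ _).1 hij
    have := x.2.isLt
    omega
  have hBn : Bm n = 0 := by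
    apply Nat.eq_of_testBit_eq
    intro i
    rw [bB, Nat.zero_testBit]
    apply decide_eq_false
    intro hij
    obtain ⟨x, -, -, h2⟩ := (hb _ _).1 hij
    have := x.2.isLt
    omega
  have hcA : ∑ k ∈ Finset.range n, pop P.m (Am k) = D.card := card_mask D a ha
  have hcB : ∑ k ∈ Finset.range n, pop P.m (Bm k) = D'.card := card_mask D' b hb
  have hfA := half P hpot n Am (cov P.m Am) (fun j => msk_lt _ _) rfl (fun j => rfl) hdA hAn
  have hfB := half P hpot n Bm (cov P.m Bm) (fun j => msk_lt _ _) rfl (fun j => rfl) hdB hBn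
  rw [hcA] at hfA
  rw [hcB, hcard] at hfB
  have bud : ∀ (X : ℕ → ℕ), (∀ d j, j + d = n → P.q * (∑ k ∈ Finset.range j, pop P.m (X k)) +
      pot P (prv X 0 j) (cov P.m X j) + P.p * d ≤ P.q * D.card + P.K) →
      ∀ j ≤ n, P.q * (∑ k ∈ Finset.range j, pop P.m (X k)) + pot P (prv X 0 j) (cov P.m X j) ≤
        vmax + P.K + P.p * j := by
    intro X hX j hj
    have h1 := hX (n - j) j (by omega)
    have h2 : P.p * n = P.p * j + P.p * (n - j) := by
      rw [← Nat.mul_add]
      congr 1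
      omega
    omega
  have budA := bud Am hfA
  have budB := bud Bm hfB
  let xs : (ℕ → ℕ) → ℕ → ℕ := fun X j => vmax + P.K + P.p * j -
    (P.q * (∑ k ∈ Finset.range j, pop P.m (X k)) + pot P (prv X 0 j) (cov P.m X j))
  have step : ∀ (X : ℕ → ℕ), (∀ j ≤ n, P.q * (∑ k ∈ Finset.range j, pop P.m (X k)) +
      pot P (prv X 0 j) (cov P.m X j) ≤ vmax + P.K + P.p * j) → ∀ j < n,
      (P.q * pop P.m (X j) + pot P (X j) (prv X 0 j ||| nbr P.m (X j)) ≤
        xs X j + pot P (prv X 0 j) (cov P.m X j) + P.p) ∧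
      xs X (j + 1) = xs X j + pot P (prv X 0 j) (cov P.m X j) + P.p -
        (P.q * pop P.m (X j) + pot P (X j) (prv X 0 j ||| nbr P.m (X j))) := by
    intro X hX j hj
    have h1 := hX j hj.le
    have h2 := hX (j + 1) hj
    have e1 : prv X 0 (j + 1) = X j := rfl
    have e2 : cov P.m X (j + 1) = prv X 0 j ||| nbr P.m (X j) := rfl
    rw [Finset.sum_range_succ, Nat.mul_add P.q, e1, e2, Nat.mul_add P.p j 1, Nat.mul_one] at h2
    have e3 : xs X (j + 1) = vmax + P.K + P.p * (j + 1) -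
      (P.q * (∑ k ∈ Finset.range (j + 1), pop P.m (X k)) +
        pot P (prv X 0 (j + 1)) (cov P.m X (j + 1))) := rfl
    have e4 : xs X j = vmax + P.K + P.p * j -
      (P.q * (∑ k ∈ Finset.range j, pop P.m (X k)) + pot P (prv X 0 j) (cov P.m X j)) := rfl
    rw [Finset.sum_range_succ, Nat.mul_add P.q, e1, e2, Nat.mul_add P.p j 1, Nat.mul_one] at e3
    omega
  have main : ∀ j ≤ n, (⟨prv Am 0 j, prv Bm 0 j, prv Rm 0 j, prv Lm 0 j, cov P.m Am j,
      cov P.m Bm j, xs Am j, xs Bm j⟩ : St) ∈ S j := by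
    intro j
    induction j with
    | zero =>
      intro _
      have e1 : ∀ X, xs X 0 = x0 := by
        intro X
        have e4 : xs X 0 = vmax + P.K + P.p * 0 -
          (P.q * (∑ k ∈ Finset.range 0, pop P.m (X k)) + pot P 0 (2 ^ P.m - 1)) := rfl
        rw [Finset.sum_range_zero, Nat.mul_zero, Nat.mul_zero] at e4
        omega
      rw [e1, e1]
      exact h0
    | succ j ih =>
      intro hj
      have h1 := hS j hj _ (ih (by omega))
      unfold stepOK at h1
      simp only at h1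
      have h2 := allSub_sound _ _ _ _ h1 (Am j &&& cov P.m Am j)
        (lt_of_le_of_lt Nat.and_le_left (msk_lt _ _)) (by
          intro i hi
          rw [Nat.testBit_and, Bool.and_eq_true] at hi
          exact hi.2)
      rw [sup_eq _ _ _ (covlt Am (fun j => msk_lt _ _) j) (msk_lt _ _) (hdA j (by omega))] at h2
      have cA : (Nat.beq (prv Lm 0 j &&& Am j) (prv Lm 0 j) &&
          Nat.ble (P.q * pop P.m (Am j) + pot P (Am j) (prv Am 0 j ||| nbr P.m (Am j)))
            (xs Am j + pot P (prv Am 0 j) (cov P.m Am j) + P.p)) = true := by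
        simp only [Bool.and_eq_true]
        refine ⟨beq_true _ _ ?_, ?_⟩
        · apply Nat.eq_of_testBit_eq
          intro i
          rw [Nat.testBit_and]
          exact p5a _ _ _ _ _ (QA i j)
        · rw [Nat.ble_eq]
          exact (step Am budA j hj).1
      have h3 := not_or_true _ _ h2 cA
      have h4 := allSub_sound _ _ _ _ h3 (Bm j &&& cov P.m Bm j)
        (lt_of_le_of_lt Nat.and_le_left (msk_lt _ _)) (by
          intro i hi
          rw [Nat.testBit_and, Bool.and_eq_true] at hi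
          exact hi.2)
      rw [sup_eq _ _ _ (covlt Bm (fun j => msk_lt _ _) j) (msk_lt _ _) (hdB j (by omega))] at h4
      have cB : (Nat.beq (prv Rm 0 j &&& Bm j) (prv Rm 0 j) &&
          Nat.ble (P.q * pop P.m (Bm j) + pot P (Bm j) (prv Bm 0 j ||| nbr P.m (Bm j)))
            (xs Bm j + pot P (prv Bm 0 j) (cov P.m Bm j) + P.p)) = true := by
        simp only [Bool.and_eq_true]
        refine ⟨beq_true _ _ ?_, ?_⟩
        · apply Nat.eq_of_testBit_eq
          intro i
          rw [Nat.testBit_and]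
          exact p5a _ _ _ _ _ (QB i j)
        · rw [Nat.ble_eq]
          exact (step Bm budB j hj).1
      have h5 := not_or_true _ _ h4 cB
      have h6 := allSub_sound _ _ _ _ h5 (Um j) (msk_lt _ _) (by
        intro i hi
        have q1 := p5b _ _ _ _ _ (QA i j)
        have q2 := p5e _ _ _ _ _ (QB (i + 1) j)
        rw [Nat.testBit_and, Nat.testBit_xor, Nat.testBit_shiftRight, Nat.testBit_xor,
          add_comm 1 i]
        rw [Nat.testBit_shiftLeft, Nat.add_sub_cancel, hi] at q2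
        rw [hi] at q1
        simp only [Bool.true_and] at q1
        rw [q1]
        simpa using q2)
      rw [Nat.zero_or] at h6
      have h9 := allSub_sound _ _ _ _ h6 (Wm j) (msk_lt _ _) (by
        intro i hi
        have q1 := p5f _ _ _ _ _ (QB i j)
        have q2 := p5c _ _ _ _ _ (QA (i + 1) j)
        rw [Nat.testBit_and, Nat.testBit_xor, Nat.testBit_xor, Nat.testBit_shiftRight,
          Nat.testBit_xor, Nat.testBit_xor, add_comm 1 i]
        rw [Nat.testBit_shiftLeft, Nat.add_sub_cancel, hi] at q2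
        rw [hi] at q1
        simp only [Bool.true_and] at q1
        rw [q1]
        simpa using q2)
      rw [Nat.zero_or] at h9
      rw [memb_iff] at h9
      have eR : Am j ^^^ prv Lm 0 j ^^^ Um j ^^^ (Wm j <<< 1) = Rm j := by
        apply Nat.eq_of_testBit_eq
        intro i
        rw [Nat.testBit_xor, Nat.testBit_xor, Nat.testBit_xor]
        exact p5d _ _ _ _ _ (QA i j)
      have eL : Bm j ^^^ prv Rm 0 j ^^^ (Um j <<< 1) ^^^ Wm j = Lm j := by
        apply Nat.eq_of_testBit_eq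
        intro i
        rw [Nat.testBit_xor, Nat.testBit_xor, Nat.testBit_xor]
        exact p5g _ _ _ _ _ (QB i j)
      rw [eR, eL, ← (step Am budA j hj).2, ← (step Bm budB j hj).2] at h9
      exact h9
  have hend := hfin _ (main n le_rfl)
  unfold termOK at hend
  simp only at hend
  have hCn : cov P.m Am n = 2 ^ P.m - 1 := by
    have := hdA n le_rfl
    rw [hAn, Nat.or_zero] at this
    exact this
  have hEn : cov P.m Bm n = 2 ^ P.m - 1 := by
    have := hdB n le_rfl
    rw [hBn, Nat.or_zero] at this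
    exact this
  have hRn : prv Rm 0 n = 0 := by
    apply Nat.eq_of_testBit_eq
    intro i
    rw [bRp, Nat.zero_testBit]
    apply decide_eq_false
    rintro ⟨h1, h2⟩
    obtain ⟨x, -, -, h3⟩ := (hb _ _).1 (hMb _ _ _ _ h2)
    have := x.2.isLt
    omega
  have hLn : prv Lm 0 n = 0 := by
    apply Nat.eq_of_testBit_eq
    intro i
    rw [bLp, Nat.zero_testBit]
    apply decide_eq_false
    rintro ⟨h1, h2⟩
    obtain ⟨x, -, -, h3⟩ := (ha _ _).1 (hMa _ _ _ _ h2)
    have := x.2.isLt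
    omega
  have hc : (Nat.beq (cov P.m Am n) (2 ^ P.m - 1) && Nat.beq (cov P.m Bm n) (2 ^ P.m - 1) &&
      Nat.beq (prv Rm 0 n) 0 && Nat.beq (prv Lm 0 n) 0) = true := by
    simp only [Bool.and_eq_true]
    exact ⟨⟨⟨beq_true _ _ hCn, beq_true _ _ hEn⟩, beq_true _ _ hRn⟩, beq_true _ _ hLn⟩
  have h1 := not_or_true _ _ hend hc
  rw [Nat.ble_eq] at h1
  have h2 := budA n le_rfl
  have e4 : xs Am n = vmax + P.K + P.p * n -
      (P.q * (∑ k ∈ Finset.range n, pop P.m (Am k)) + pot P (prv Am 0 n) (cov P.m Am n)) := rfl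
  rw [hcA] at h2 e4
  omega

end PatDom.V2
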