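import Pool.Agent.H.MP_b28609_co.V2.LowC
import Pool.Agent.H.MP_b28609_co.LowD

/-!
# MP_b28609_co: lower bounds from finite lists, faster checks
-/

set_option autoImplicit false

namespace PatDom.V2

/-- Check of the final states of the lists `0, ..., N`. -/
def finOK (P : Par) (vmax : ℕ) (L : ℕ → List St) (V : ℕ → ℕ) (N : ℕ) : Bool :=
  allR (N + 1) fun j => (L j).all (termOK P vmax (V j)) && Nat.ble (V j) (vmax + 1)

/-- Lower bound for all `n` when the last list is empty. -/
theorem low_all (P : Par) (hpot : PotOK P) (vmax x0 N : ℕ) (L : ℕ → List St) (V : ℕ → ℕ)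
    (hx0 : x0 + pot P 0 (2 ^ P.m - 1) = vmax + P.K) (h0 : L 0 = [st0 P x0])
    (hc : ∀ j < N, (L j).all (stepOK P (L (j + 1))) = true) (hf : finOK P vmax L V N = true)
    (hL : ∀ j, N ≤ j → L j = []) (hV : ∀ j, N < j → V j = vmax + 1) (n : ℕ)
    (D : Finset (Fin P.m × Fin n)) (hD : Patrol (grid P.m n) D) :
    P.p * n + V n ≤ P.q * D.card := by
  have hstep : ∀ j < n, ∀ s ∈ L j, stepOK P (L (j + 1)) s = true := by
    intro j hj s hs
    by_cases hj' : j < N
    · exact List.all_eq_true.1 (hc j hj') s hs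
    · rw [hL j (by omega)] at hs
      exact absurd hs (by simp)
  have hmem : (⟨0, 0, 0, 0, 2 ^ P.m - 1, 2 ^ P.m - 1, x0, x0⟩ : St) ∈ L 0 := by
    rw [h0]
    exact List.mem_singleton.2 rfl
  by_cases hn : n ≤ N
  · unfold finOK at hf
    rw [allR_iff] at hf
    have hfn := hf n (by omega)
    rw [Bool.and_eq_true, Nat.ble_eq] at hfn
    refine low_sound P hpot n D hD vmax x0 (V n) hx0 L hmem hstep hfn.2 ?_
    intro s hs
    exact List.all_eq_true.1 hfn.1 s hs
  · rw [hV n (by omega)]
    refine low_sound P hpot n D hD vmax x0 _ hx0 L hmem hstep le_rfl ?_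
    intro s hs
    rw [hL n (by omega)] at hs
    exact absurd hs (by simp)

end PatDom.V2
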